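import Pool.Agent.H71.CMC.Main

/-!
# MP_07eaf5_gt: a convex analytic planar curve that does not bound `H`-surfaces for all `H` up to
`L / (2 |D|)`

All definitions used in the statement (`IsCMC`, `HSurfaceExists`, `emb`,
`IsAnalyticSimpleClosedCurve`, `curveLength`, `area`, ...) are in `Pool/Agent/H71/CMC/Defs.lean`.
-/

open MeasureTheory Set

namespace Pool.Agent.Results.MP_07eaf5_gt.PlanarCurveGap

open H71CMC

/-- Negative answer to Q1, and to the convex case of Q2: there are a real-analytic simple closed
planar curve, bounding a convex domain `D`, and `H₀ < L / (2 |D|)` such that no compact orientable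
immersed surface bounded by the curve has constant mean curvature `H` with `|H| > H₀`. -/
theorem result : ∃ (γ : ℝ → EuclideanSpace ℝ (Fin 2)) (P : ℝ)
    (D : Set (EuclideanSpace ℝ (Fin 2))) (H₀ : ℝ),
    IsAnalyticSimpleClosedCurve γ P ∧
    IsOpen D ∧ Convex ℝ D ∧ D.Nonempty ∧ Bornology.IsBounded D ∧ frontier D = range γ ∧
    0 < H₀ ∧ H₀ < curveLength γ P / (2 * area D) ∧
    ∀ H : ℝ, H₀ < |H| → ¬ HSurfaceExists H (emb '' range γ) :=
  main

end Pool.Agent.Results.MP_07eaf5_gt.PlanarCurveGap
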